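import Pool.Agent.Q61.BS.Stm

/-! Project BS (helper61), job HLS (helper13): null sets for the Hausdorff measure from covers which
contain every point infinitely often. -/

set_option autoImplicit false

open MeasureTheory Set Filter Topology Real

namespace Pool.Agent.Q13.BS

open Pool.Agent.Q61.BS

theorem hls : S_hls := by
  intro G s J _ U a hs ha ha0 hd hsum hG
  have hr : Tendsto (fun N : ℕ => ENNReal.ofReal ((1 / 5 : ℝ) ^ N)) atTop (𝓝 0) := by
    have h1 : Tendsto (fun N : ℕ => (1 / 5 : ℝ) ^ N) atTop (𝓝 0) :=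
      tendsto_pow_atTop_nhds_zero_of_lt_one (by norm_num) (by norm_num)
    have h2 := ENNReal.tendsto_ofReal h1
    rwa [ENNReal.ofReal_zero] at h2
  have key := Measure.hausdorffMeasure_le_liminf_tsum (β := ℕ) (ι := fun N => Σ n : ℕ, J (n + N)) s G
    (l := atTop) (fun N : ℕ => ENNReal.ofReal ((1 / 5 : ℝ) ^ N)) hr
    (fun N p => U (p.1 + N) p.2) ?_ ?_
  · refine le_antisymm (key.trans ?_) zero_le
    have hb : Tendsto (fun N : ℕ => ∑' n : ℕ, ENNReal.ofReal (a (n + N))) atTop (𝓝 0) :=
      ENNReal.tendsto_sum_nat_add (fun n => ENNReal.ofReal (a n)) ha.tsum_ofReal_ne_top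
    rw [← hb.liminf_eq]
    refine liminf_le_liminf ?_
    filter_upwards [eventually_ge_atTop 1] with N hN
    rw [ENNReal.tsum_sigma']
    refine ENNReal.tsum_le_tsum fun n => ?_
    rw [tsum_fintype]
    exact hsum (n + N) (by omega)
  · refine Eventually.of_forall fun N p => (hd _ _).trans (ENNReal.ofReal_le_ofReal ?_)
    exact pow_le_pow_of_le_one (by norm_num) (by norm_num) (Nat.le_add_left _ _)
  · refine Eventually.of_forall fun N x hx => ?_
    obtain ⟨n, hn, j, hj⟩ := (frequently_atTop.1 (hG x hx)) N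
    obtain ⟨i, rfl⟩ := Nat.exists_eq_add_of_le' hn
    exact mem_iUnion.2 ⟨⟨i, j⟩, hj⟩

end Pool.Agent.Q13.BS
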