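import Pool.Agent.Q61.BS.Stm

/-! Project BS (helper61), job MDP (helper13): the mass distribution principle. -/

set_option autoImplicit false

open MeasureTheory Set Filter Topology Real

namespace Pool.Agent.Q13.BS

open Pool.Agent.Q61.BS

theorem mdp : S_mdp := by
  intro μ f s hμ hs hae
  set G : ℕ → Set (ℕ → Fin 4) := fun N => {ω | ∀ ρ : ℝ, 0 < ρ → ρ < 1 / ((N : ℝ) + 1) →
    μ {ω' | dist (f ω') (f ω) ≤ ρ} ≤ ENNReal.ofReal (ρ ^ s)} with hG
  have h1 : ∀ᵐ ω ∂μ, ω ∈ ⋃ N, G N := by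
    filter_upwards [hae] with ω hω
    obtain ⟨ρ₀, hρ₀, h⟩ := hω
    obtain ⟨N, hN⟩ := exists_nat_one_div_lt hρ₀
    exact mem_iUnion.2 ⟨N, fun ρ hρ hρN => h ρ hρ (hρN.trans hN)⟩
  have h2 : ∃ N, μ (G N) ≠ 0 := by
    by_contra hcon
    push_neg at hcon
    have h3 : μ (⋃ N, G N) = 0 := measure_iUnion_null hcon
    have h4 : μ (⋃ N, G N)ᶜ = 0 := h1
    have h5 : μ univ ≤ μ (⋃ N, G N) + μ (⋃ N, G N)ᶜ := by
      rw [← union_compl_self (⋃ N, G N)]
      exact measure_union_le _ _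
    rw [h3, h4, measure_univ, add_zero] at h5
    exact absurd h5 (by simp)
  obtain ⟨N, hN⟩ := h2
  have hN0 : (0 : ℝ) < (N : ℝ) + 1 := by positivity
  have key : μ (G N) ≤ Measure.hausdorffMeasure s (f '' G N) := by
    rw [Measure.hausdorffMeasure_apply]
    have hr : (0 : ENNReal) < ENNReal.ofReal (1 / (2 * ((N : ℝ) + 1))) := by
      rw [ENNReal.ofReal_pos]
      positivity
    refine le_iSup₂_of_le _ hr (le_iInf fun t => le_iInf fun ht => le_iInf fun hd => ?_)
    have hsub : G N ⊆ ⋃ k, G N ∩ f ⁻¹' t k := by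
      intro ω hω
      obtain ⟨k, hk⟩ := mem_iUnion.1 (ht (mem_image_of_mem f hω))
      exact mem_iUnion.2 ⟨k, hω, hk⟩
    refine (measure_mono hsub).trans ((measure_iUnion_le _).trans (ENNReal.tsum_le_tsum fun k => ?_))
    rcases (G N ∩ f ⁻¹' t k).eq_empty_or_nonempty with he | ⟨ω, hω1, hω2⟩
    · rw [he, measure_empty]
      exact zero_le
    refine le_iSup_of_le ⟨f ω, hω2⟩ ?_
    have hfin : Metric.ediam (t k) ≠ ⊤ := ((hd k).trans_lt ENNReal.ofReal_lt_top).ne
    set D : ℝ := (Metric.ediam (t k)).toReal with hD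
    have hD0 : 0 ≤ D := ENNReal.toReal_nonneg
    have hDe : Metric.ediam (t k) = ENNReal.ofReal D := (ENNReal.ofReal_toReal hfin).symm
    have hD1 : D ≤ 1 / (2 * ((N : ℝ) + 1)) := by
      have := hd k
      rw [hDe] at this
      exact (ENNReal.ofReal_le_ofReal_iff (by positivity)).1 this
    have hD2 : D < 1 / ((N : ℝ) + 1) := by
      refine hD1.trans_lt (one_div_lt_one_div_of_lt hN0 (by linarith))
    have hdist : ∀ ω' ∈ G N ∩ f ⁻¹' t k, dist (f ω') (f ω) ≤ D := by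
      intro ω' hω'
      have h6 : edist (f ω') (f ω) ≤ Metric.ediam (t k) := Metric.edist_le_ediam_of_mem hω'.2 hω2
      rw [hDe, edist_dist] at h6
      exact (ENNReal.ofReal_le_ofReal_iff hD0).1 h6
    have hρ : ∀ ρ : ℝ, 0 < ρ → D ≤ ρ → ρ < 1 / ((N : ℝ) + 1) →
        μ (G N ∩ f ⁻¹' t k) ≤ ENNReal.ofReal (ρ ^ s) := by
      intro ρ h7 h8 h9
      refine (measure_mono ?_).trans (hω1 ρ h7 h9)
      intro ω' hω'
      exact (hdist ω' hω').trans h8
    rcases hD0.lt_or_eq with hpos | hzero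
    · rw [hDe, ENNReal.ofReal_rpow_of_pos hpos]
      exact hρ D hpos le_rfl hD2
    · have h10 : Tendsto (fun ρ : ℝ => ENNReal.ofReal (ρ ^ s)) (𝓝[>] 0) (𝓝 0) := by
        have h11 : Tendsto (fun ρ : ℝ => ρ ^ s) (𝓝[>] 0) (𝓝 0) := by
          have h12 : ContinuousAt (fun ρ : ℝ => ρ ^ s) 0 :=
            Real.continuousAt_rpow_const _ _ (Or.inr hs.le)
          have h13 := h12.tendsto
          simp only [Real.zero_rpow hs.ne'] at h13
          exact h13.mono_left nhdsWithin_le_nhds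
        have h14 := ENNReal.tendsto_ofReal h11
        rwa [ENNReal.ofReal_zero] at h14
      have h15 : μ (G N ∩ f ⁻¹' t k) ≤ 0 := by
        refine ge_of_tendsto h10 ?_
        have h16 : Ioo (0 : ℝ) (1 / ((N : ℝ) + 1)) ∈ 𝓝[>] (0 : ℝ) :=
          Ioo_mem_nhdsGT (by positivity)
        filter_upwards [h16] with ρ h17
        exact hρ ρ h17.1 (by rw [← hzero]; exact h17.1.le) h17.2
      exact h15.trans zero_le
  have h20 : Measure.hausdorffMeasure ((s.toNNReal : NNReal) : ℝ) (range f) ≠ 0 := by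
    rw [Real.coe_toNNReal s hs.le]
    intro h0
    have h21 : μ (G N) ≤ 0 := by
      rw [← h0]
      exact key.trans (measure_mono (image_subset_range f _))
    exact hN (le_antisymm h21 zero_le)
  exact le_dimH_of_hausdorffMeasure_ne_zero h20

end Pool.Agent.Q13.BS
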