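import Pool.Agent.Q61.BS.Stm

/-! Project BS (helper61), job UPP (helper13): the upper bound of the Hausdorff dimension. -/

set_option autoImplicit false

open MeasureTheory Set Filter Topology Real

namespace Pool.Agent.Q13.BS

open Pool.Agent.Q61.BS

theorem upp (h : S_inf) (h1 : S_hls) (h2 : S_dia) (h3 : S_cov) (h4 : S_sum) (h5 : S_mmn)
    (h6 : S_hgt) : S_upp := by
  intro β₁ β₂ hβ₁ hβ₂
  have hl5 : 0 < log 5 := Real.log_pos (by norm_num)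
  have hl3 : 0 < log 3 := Real.log_pos (by norm_num)
  have hDD : 0 ≤ DD β₁ β₂ := by
    refine Real.sSup_nonneg ?_
    rintro _ ⟨x, hx, rfl⟩
    have e1 : 0 ≤ binEntropy x := Real.binEntropy_nonneg hx.1 hx.2
    have e0 : 0 ≤ 1 - x := by linarith [hx.2]
    have e2 : 0 ≤ x * β₁ + (1 - x) * β₂ :=
      add_nonneg (mul_nonneg hx.1 (hl5.trans hβ₁).le) (mul_nonneg e0 (hl5.trans hβ₂).le)
    exact add_nonneg (div_nonneg e1 hl5.le) (div_nonneg (mul_nonneg e0 hl3.le) e2)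
  have key : ∀ δ : ℝ, 0 < δ → dimH (range (pt β₁ β₂)) ≤ ENNReal.ofReal (DD β₁ β₂ + 2 * δ) := by
    intro δ hδ
    set θ : ℝ := DD β₁ β₂ + δ with hθ
    have hs : 0 < θ + δ := by linarith
    obtain ⟨a, ha1, ha2, ha3⟩ := h4 β₁ β₂ θ δ hβ₁ hβ₂ hδ
    have hzero : Measure.hausdorffMeasure (θ + δ) (range (pt β₁ β₂)) = 0 := by
      refine h1 (range (pt β₁ β₂)) (θ + δ) (fun n => Σ i : Fin (n + 1), ↥(TT β₁ β₂ θ n (i : ℕ)))
        (fun n => Fintype.ofFinite _)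
        (fun n j => pt β₁ β₂ '' Sq n (mm β₁ β₂ n (j.1 : ℕ)) (ex j.2.1)) a hs ha1 ha2 ?_ ?_ ?_
      · rintro n ⟨i, τ, hτ⟩
        have hi : (i : ℕ) ≤ n := Nat.lt_succ_iff.1 i.2
        refine (h2 β₁ β₂ hβ₁ hβ₂ n i (ex τ) hi hτ.1).trans (ENNReal.ofReal_le_ofReal ?_)
        exact pow_le_pow_of_le_one (by norm_num) (by norm_num) (h5 β₁ β₂ hβ₁ hβ₂ n i hi).1
      · intro n hn
        refine le_trans ?_ (ENNReal.ofReal_le_ofReal (ha3 n hn))
        letI : Fintype (Σ i : Fin (n + 1), ↥(TT β₁ β₂ θ n (i : ℕ))) := Fintype.ofFinite _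
        rw [← tsum_fintype (L := SummationFilter.unconditional _), ENNReal.tsum_sigma', tsum_fintype, ENNReal.ofReal_sum_of_nonneg
          (fun i _ => by positivity), ← Fin.sum_univ_eq_sum_range (fun i : ℕ => ENNReal.ofReal
            ((Nat.card (TT β₁ β₂ θ n i) : ℝ) * ((1 / 5 : ℝ) ^ (mm β₁ β₂ n i)) ^ (θ + δ))) (n + 1)]
        refine Finset.sum_le_sum fun i _ => ?_
        have hi : (i : ℕ) ≤ n := Nat.lt_succ_iff.1 i.2
        haveI : Fintype ↥(TT β₁ β₂ θ n (i : ℕ)) := Fintype.ofFinite _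
        rw [tsum_fintype]
        have hb : ∀ τ : ↥(TT β₁ β₂ θ n (i : ℕ)),
            Metric.ediam (pt β₁ β₂ '' Sq n (mm β₁ β₂ n (i : ℕ)) (ex τ.1)) ^ (θ + δ) ≤
              ENNReal.ofReal (((1 / 5 : ℝ) ^ (mm β₁ β₂ n (i : ℕ))) ^ (θ + δ)) := by
          intro τ
          rw [← ENNReal.ofReal_rpow_of_pos (by positivity)]
          exact ENNReal.rpow_le_rpow (h2 β₁ β₂ hβ₁ hβ₂ n i (ex τ.1) hi τ.2.1) hs.le
        refine (Finset.sum_le_sum fun τ _ => hb τ).trans (le_of_eq ?_)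
        rw [Finset.sum_const, Finset.card_univ, nsmul_eq_mul, ENNReal.ofReal_mul (Nat.cast_nonneg _),
          ENNReal.ofReal_natCast, Nat.card_eq_fintype_card]
      · rintro _ ⟨ω, rfl⟩
        refine (h β₁ β₂ hβ₁ hβ₂ δ hδ ω).mono fun n hn => ?_
        obtain ⟨τ, hτ1, hτ2⟩ := h3 β₁ β₂ θ hβ₁ hβ₂ ω n hn
        exact ⟨⟨⟨zc ω n, Nat.lt_succ_of_le (h6 β₁ β₂ ω n).1⟩, ⟨τ, hτ1⟩⟩, ω, hτ2, rfl⟩
    have h20 : Measure.hausdorffMeasure (((θ + δ).toNNReal : NNReal) : ℝ) (range (pt β₁ β₂)) ≠ ⊤ := by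
      rw [Real.coe_toNNReal _ hs.le, hzero]
      exact ENNReal.zero_ne_top
    have h21 := dimH_le_of_hausdorffMeasure_ne_top h20
    have h22 : DD β₁ β₂ + 2 * δ = θ + δ := by rw [hθ]; ring
    rw [h22]
    exact h21
  have hlim : Tendsto (fun δ : ℝ => ENNReal.ofReal (DD β₁ β₂ + 2 * δ)) (𝓝[>] 0)
      (𝓝 (ENNReal.ofReal (DD β₁ β₂))) := by
    refine ENNReal.tendsto_ofReal ?_
    have : Tendsto (fun δ : ℝ => DD β₁ β₂ + 2 * δ) (𝓝 0) (𝓝 (DD β₁ β₂ + 2 * 0)) :=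
      (continuous_const.add (continuous_const.mul continuous_id)).tendsto 0
    rw [mul_zero, add_zero] at this
    exact this.mono_left nhdsWithin_le_nhds
  refine ge_of_tendsto hlim ?_
  filter_upwards [self_mem_nhdsWithin] with δ hδ
  exact key δ hδ

end Pool.Agent.Q13.BS
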